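import Mathlib
import Pool.Agent.Q6.McLain.Basic
import Pool.Agent.Q6.McLain.ProdAut

/-!
# MP_f6f6d4_al, Q1: yes

A non-abelian characteristically simple group `T`, neither simple nor a finite power of a
non-abelian simple group, such that `D(T, m)` preserves a Cartesian lattice for every `m > 1`.
The example is the square of the McLain group over the field with two elements and the rationals.
-/

namespace Pool.Agent.Results.MP_f6f6d4_al.McLainSquare

/-- `T` is non-abelian. -/
def NonAbelian (T : Type) [Group T] : Prop := ∃ a b : T, a * b ≠ b * a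

/-- `T` is characteristically simple: nontrivial, and `1` and `T` are the only characteristic
subgroups. -/
def CharSimple (T : Type) [Group T] : Prop :=
  Nontrivial T ∧ ∀ C : Subgroup T, C.Characteristic → C = ⊥ ∨ C = ⊤

/-- `T` is an FCR-group: isomorphic to a power `S ^ k`, `k ≥ 1`, of a non-abelian simple group. -/
def IsFCR (T : Type) [Group T] : Prop :=
  ∃ (S : Type) (_ : Group S) (k : ℕ), IsSimpleGroup S ∧ NonAbelian S ∧ 1 ≤ k ∧
    Nonempty (T ≃* (Fin k → S))

/-- The diagonal subgroup of `T ^ (m + 1)`. -/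
def diag (T : Type) [Group T] (m : ℕ) : Subgroup (Fin (m + 1) → T) where
  carrier := {x | ∃ t : T, ∀ i, x i = t}
  one_mem' := ⟨1, fun _ => rfl⟩
  mul_mem' := by
    rintro x y ⟨s, hs⟩ ⟨t, ht⟩
    exact ⟨s * t, fun i => by rw [Pi.mul_apply, hs, ht]⟩
  inv_mem' := by
    rintro x ⟨s, hs⟩
    exact ⟨s⁻¹, fun i => by rw [Pi.inv_apply, hs]⟩

/-- The set `Ω` of right cosets of the diagonal subgroup in `T ^ (m + 1)`. -/
def Omega (T : Type) [Group T] (m : ℕ) : Type :=
  Quotient (QuotientGroup.rightRel (diag T m))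

/-- The right coset of `x`. -/
def coset {T : Type} [Group T] {m : ℕ} (x : Fin (m + 1) → T) : Omega T m :=
  Quotient.mk (QuotientGroup.rightRel (diag T m)) x

/-- The permutation `σ` of `Ω` is induced by the map `φ` of `T ^ (m + 1)`. -/
def InducedBy {T : Type} [Group T] {m : ℕ} (σ : Equiv.Perm (Omega T m))
    (φ : (Fin (m + 1) → T) → (Fin (m + 1) → T)) : Prop :=
  ∀ x, σ (coset x) = coset (φ x)

/-- The diagonal group `D(T, m)`, generated by right multiplications by elements of `T ^ (m + 1)`,
by the maps induced by automorphisms of `T`, and by the permutations of the coordinates. -/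
def diagonalGroup (T : Type) [Group T] (m : ℕ) : Subgroup (Equiv.Perm (Omega T m)) :=
  Subgroup.closure {σ | (∃ y : Fin (m + 1) → T, InducedBy σ (fun x => x * y)) ∨
    (∃ α : T ≃* T, InducedBy σ (fun x i => α (x i))) ∨
    (∃ π : Equiv.Perm (Fin (m + 1)), InducedBy σ (fun x i => x (π i)))}

/-- The partition `Q_J` of `X`, transported from `Δ ^ n` along `f`: two points lie in the same
part if and only if their images agree in every coordinate outside `J`. -/
def partitionQ {X Δ : Type} {n : ℕ} (f : X ≃ (Fin n → Δ)) (J : Set (Fin n)) : Setoid X where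
  r a b := ∀ i, i ∉ J → f a i = f b i
  iseqv := ⟨fun _ _ _ => rfl, fun h i hi => (h i hi).symm,
    fun h h' i hi => (h i hi).trans (h' i hi)⟩

/-- The image of a partition `P` under a permutation `g`: the points `a` and `b` lie in the same
part of it if and only if `g⁻¹ a` and `g⁻¹ b` lie in the same part of `P`. -/
def imagePartition {X : Type} (g : Equiv.Perm X) (P : Setoid X) : Setoid X :=
  Setoid.comap (fun a => g.symm a) P

/-- `G` preserves a Cartesian lattice on `X`. -/
def PreservesCartesianLattice {X : Type} (G : Subgroup (Equiv.Perm X)) : Prop :=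
  ∃ (n : ℕ) (Δ : Type) (f : X ≃ (Fin n → Δ)), 2 ≤ n ∧ Nontrivial Δ ∧
    ∀ g ∈ G, imagePartition g '' Set.range (partitionQ f) = Set.range (partitionQ f)

theorem coset_eq {T : Type} [Group T] {m : ℕ} (x y : Fin (m + 1) → T) :
    coset x = coset y ↔ ∀ i, y i * (x i)⁻¹ = y 0 * (x 0)⁻¹ := by
  have h : coset x = coset y ↔ y * x⁻¹ ∈ diag T m := by
    rw [← QuotientGroup.rightRel_apply]
    exact Quotient.eq
  rw [h]
  constructor
  · rintro ⟨t, ht⟩ i
    have h1 := ht i
    have h2 := ht 0
    rw [Pi.mul_apply, Pi.inv_apply] at h1 h2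
    rw [h1, h2]
  · intro h
    exact ⟨y 0 * (x 0)⁻¹, fun i => h i⟩

/-- The property of a permutation used for the preservation of the lattice. -/
def Good {X Δ : Type} {n : ℕ} (f : X ≃ (Fin n → Δ)) (g : Equiv.Perm X) : Prop :=
  ∃ π : Equiv.Perm (Fin n), ∀ a b i, f (g a) (π i) = f (g b) (π i) ↔ f a i = f b i

theorem good_mul {X Δ : Type} {n : ℕ} {f : X ≃ (Fin n → Δ)} {g k : Equiv.Perm X}
    (hg : Good f g) (hk : Good f k) : Good f (g * k) := by
  obtain ⟨π, hπ⟩ := hg
  obtain ⟨ρ, hρ⟩ := hk
  refine ⟨π * ρ, fun a b i => ?_⟩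
  show f (g (k a)) (π (ρ i)) = f (g (k b)) (π (ρ i)) ↔ _
  rw [hπ, hρ]

theorem good_inv {X Δ : Type} {n : ℕ} {f : X ≃ (Fin n → Δ)} {g : Equiv.Perm X}
    (hg : Good f g) : Good f g⁻¹ := by
  obtain ⟨π, hπ⟩ := hg
  refine ⟨π⁻¹, fun a b i => ?_⟩
  have h := hπ (g⁻¹ a) (g⁻¹ b) (π⁻¹ i)
  have e1 : ∀ x, g (g⁻¹ x) = x := g.apply_symm_apply
  have e2 : ∀ x, π (π⁻¹ x) = x := π.apply_symm_apply
  rw [e1, e1, e2] at h
  exact h.symm

theorem good_image {X Δ : Type} {n : ℕ} {f : X ≃ (Fin n → Δ)} {g : Equiv.Perm X}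
    (hg : Good f g) : imagePartition g '' Set.range (partitionQ f) = Set.range (partitionQ f) := by
  obtain ⟨π, hπ⟩ := hg
  have key : ∀ J : Set (Fin n), imagePartition g (partitionQ f J) = partitionQ f (π '' J) := by
    intro J
    apply Setoid.ext
    intro a b
    show (∀ i, i ∉ J → f (g.symm a) i = f (g.symm b) i) ↔ ∀ i, i ∉ π '' J → f a i = f b i
    constructor
    · intro h i hi
      have h1 : π.symm i ∉ J := fun h' => hi ⟨_, h', π.apply_symm_apply i⟩
      have h2 := h _ h1
      rw [← hπ, g.apply_symm_apply, g.apply_symm_apply, π.apply_symm_apply] at h2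
      exact h2
    · intro h i hi
      rw [← hπ, g.apply_symm_apply, g.apply_symm_apply]
      apply h
      rintro ⟨j, hj, hji⟩
      rw [π.injective hji] at hj
      exact hi hj
  ext P
  constructor
  · rintro ⟨_, ⟨J, rfl⟩, rfl⟩
    exact ⟨_, (key J).symm⟩
  · rintro ⟨J, rfl⟩
    refine ⟨_, ⟨π.symm '' J, rfl⟩, ?_⟩
    rw [key, Set.image_image]
    congr 1
    ext i
    simp

/-- The bijection between the cosets for `G × G` and the pairs of cosets for `G`. -/
theorem exists_bij {G : Type} [Group G] (m : ℕ) :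
    ∃ f : Omega (G × G) m ≃ (Fin 2 → Omega G m),
      ∀ x, f (coset x) 0 = coset (fun i => (x i).1) ∧ f (coset x) 1 = coset (fun i => (x i).2) := by
  have hw : ∀ x y : Fin (m + 1) → G × G, coset x = coset y ↔
      (coset (fun i => (x i).1) = coset (fun i => (y i).1)) ∧
        coset (fun i => (x i).2) = coset (fun i => (y i).2) := by
    intro x y
    rw [coset_eq, coset_eq, coset_eq]
    constructor
    · intro h
      exact ⟨fun i => congrArg Prod.fst (h i), fun i => congrArg Prod.snd (h i)⟩
    · rintro ⟨h1, h2⟩ i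
      exact Prod.ext (h1 i) (h2 i)
  let F : Omega (G × G) m → (Fin 2 → Omega G m) :=
    Quotient.lift (fun x => ![coset (fun i => (x i).1), coset (fun i => (x i).2)]) (by
      intro x y hxy
      have h : coset x = coset y := Quotient.sound hxy
      rw [hw] at h
      show ![coset (fun i => (x i).1), coset (fun i => (x i).2)] =
        ![coset (fun i => (y i).1), coset (fun i => (y i).2)]
      rw [h.1, h.2])
  have hF : ∀ x, F (coset x) 0 = coset (fun i => (x i).1) ∧
      F (coset x) 1 = coset (fun i => (x i).2) := fun x => ⟨rfl, rfl⟩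
  have hinj : Function.Injective F := by
    intro a b hab
    obtain ⟨x, rfl⟩ := Quotient.exists_rep a
    obtain ⟨y, rfl⟩ := Quotient.exists_rep b
    apply (hw x y).2
    have h0 := congrFun hab 0
    have h1 := congrFun hab 1
    exact ⟨(hF x).1.symm.trans (h0.trans (hF y).1), (hF x).2.symm.trans (h1.trans (hF y).2)⟩
  have hsurj : Function.Surjective F := by
    intro p
    obtain ⟨x, hx⟩ := Quotient.exists_rep (p 0)
    obtain ⟨y, hy⟩ := Quotient.exists_rep (p 1)
    refine ⟨coset (fun i => (x i, y i)), ?_⟩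
    funext i
    fin_cases i
    · exact (hF _).1.trans hx
    · exact (hF _).2.trans hy
  exact ⟨Equiv.ofBijective F ⟨hinj, hsurj⟩, hF⟩

theorem good_of_mem {G : Type} [Group G] (hG : Q6.McLain.Good G) {m : ℕ}
    {f : Omega (G × G) m ≃ (Fin 2 → Omega G m)}
    (hf : ∀ x, f (coset x) 0 = coset (fun i => (x i).1) ∧
      f (coset x) 1 = coset (fun i => (x i).2))
    {g : Equiv.Perm (Omega (G × G) m)} (hg : g ∈ diagonalGroup (G × G) m) : Good f g := by
  induction hg using Subgroup.closure_induction with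
  | mem σ hσ =>
    rcases hσ with ⟨y, hy⟩ | ⟨θ, hθ⟩ | ⟨π, hπ⟩
    · refine ⟨1, fun a b i => ?_⟩
      obtain ⟨a, rfl⟩ := Quotient.exists_rep a
      obtain ⟨b, rfl⟩ := Quotient.exists_rep b
      change f (σ (coset a)) i = f (σ (coset b)) i ↔ f (coset a) i = f (coset b) i
      rw [hy a, hy b]
      fin_cases i
      · show f _ 0 = f _ 0 ↔ f _ 0 = f _ 0
        rw [(hf _).1, (hf _).1, (hf _).1, (hf _).1, coset_eq, coset_eq]
        apply forall_congr'
        intro i
        show (b i).1 * (y i).1 * ((a i).1 * (y i).1)⁻¹ = (b 0).1 * (y 0).1 * ((a 0).1 * (y 0).1)⁻¹ ↔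
          _
        rw [mul_inv_rev, mul_inv_rev, mul_assoc, mul_assoc, mul_inv_cancel_left,
          mul_inv_cancel_left]
      · show f _ 1 = f _ 1 ↔ f _ 1 = f _ 1
        rw [(hf _).2, (hf _).2, (hf _).2, (hf _).2, coset_eq, coset_eq]
        apply forall_congr'
        intro i
        show (b i).2 * (y i).2 * ((a i).2 * (y i).2)⁻¹ = (b 0).2 * (y 0).2 * ((a 0).2 * (y 0).2)⁻¹ ↔
          _
        rw [mul_inv_rev, mul_inv_rev, mul_assoc, mul_assoc, mul_inv_cancel_left,
          mul_inv_cancel_left]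
    · obtain ⟨α, β, hα, hβ, h⟩ := hG.aut θ
      have key : ∀ (γ : G →* G), Function.Injective γ → ∀ x y : Fin (m + 1) → G,
          coset (fun i => γ (x i)) = coset (fun i => γ (y i)) ↔ coset x = coset y := by
        intro γ hγ x y
        rw [coset_eq, coset_eq]
        apply forall_congr'
        intro i
        rw [← map_inv, ← map_inv, ← map_mul, ← map_mul, hγ.eq_iff]
      rcases h with h | h
      · refine ⟨1, fun a b i => ?_⟩
        obtain ⟨a, rfl⟩ := Quotient.exists_rep a
        obtain ⟨b, rfl⟩ := Quotient.exists_rep b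
        change f (σ (coset a)) i = f (σ (coset b)) i ↔ f (coset a) i = f (coset b) i
        rw [hθ a, hθ b]
        have e1 : ∀ x : Fin (m + 1) → G × G, (fun i => (θ (x i)).1) = fun i => α (x i).1 := by
          intro x
          funext i
          exact congrArg Prod.fst (h (x i).1 (x i).2)
        have e2 : ∀ x : Fin (m + 1) → G × G, (fun i => (θ (x i)).2) = fun i => β (x i).2 := by
          intro x
          funext i
          exact congrArg Prod.snd (h (x i).1 (x i).2)
        fin_cases i
        · show f _ 0 = f _ 0 ↔ f _ 0 = f _ 0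
          rw [(hf _).1, (hf _).1, (hf _).1, (hf _).1, e1, e1]
          exact key α hα _ _
        · show f _ 1 = f _ 1 ↔ f _ 1 = f _ 1
          rw [(hf _).2, (hf _).2, (hf _).2, (hf _).2, e2, e2]
          exact key β hβ _ _
      · refine ⟨Equiv.swap 0 1, fun a b i => ?_⟩
        obtain ⟨a, rfl⟩ := Quotient.exists_rep a
        obtain ⟨b, rfl⟩ := Quotient.exists_rep b
        change f (σ (coset a)) _ = f (σ (coset b)) _ ↔ f (coset a) i = f (coset b) i
        rw [hθ a, hθ b]
        have e1 : ∀ x : Fin (m + 1) → G × G, (fun i => (θ (x i)).1) = fun i => α (x i).2 := by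
          intro x
          funext i
          exact congrArg Prod.fst (h (x i).1 (x i).2)
        have e2 : ∀ x : Fin (m + 1) → G × G, (fun i => (θ (x i)).2) = fun i => β (x i).1 := by
          intro x
          funext i
          exact congrArg Prod.snd (h (x i).1 (x i).2)
        fin_cases i
        · show f _ (Equiv.swap 0 1 0) = f _ (Equiv.swap 0 1 0) ↔ f _ 0 = f _ 0
          rw [Equiv.swap_apply_left, (hf _).2, (hf _).2, (hf _).1, (hf _).1, e2, e2]
          exact key β hβ _ _
        · show f _ (Equiv.swap 0 1 1) = f _ (Equiv.swap 0 1 1) ↔ f _ 1 = f _ 1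
          rw [Equiv.swap_apply_right, (hf _).1, (hf _).1, (hf _).2, (hf _).2, e1, e1]
          exact key α hα _ _
    · have key : ∀ x y : Fin (m + 1) → G,
          coset (fun i => x (π i)) = coset (fun i => y (π i)) ↔ coset x = coset y := by
        intro x y
        rw [coset_eq, coset_eq]
        constructor
        · intro h i
          have h1 := h (π.symm i)
          have h2 := h (π.symm 0)
          simp only [Equiv.apply_symm_apply] at h1 h2
          rw [h1, h2]
        · intro h i
          rw [h (π i), h (π 0)]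
      refine ⟨1, fun a b i => ?_⟩
      obtain ⟨a, rfl⟩ := Quotient.exists_rep a
      obtain ⟨b, rfl⟩ := Quotient.exists_rep b
      change f (σ (coset a)) i = f (σ (coset b)) i ↔ f (coset a) i = f (coset b) i
      rw [hπ a, hπ b]
      fin_cases i
      · show f _ 0 = f _ 0 ↔ f _ 0 = f _ 0
        rw [(hf _).1, (hf _).1, (hf _).1, (hf _).1]
        exact key (fun i => (a i).1) (fun i => (b i).1)
      · show f _ 1 = f _ 1 ↔ f _ 1 = f _ 1
        rw [(hf _).2, (hf _).2, (hf _).2, (hf _).2]
        exact key (fun i => (a i).2) (fun i => (b i).2)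
  | one => exact ⟨1, fun a b i => Iff.rfl⟩
  | mul x y _ _ hx hy => exact good_mul hx hy
  | inv x _ hx => exact good_inv hx

/-- The McLain group satisfies the hypotheses. -/
theorem good_U : Q6.McLain.Good Q6.McLain.U where
  cless _ hg := Q6.McLain.centerless hg
  meet A B hA hB h1 h2 := by
    have := hA
    have := hB
    exact Q6.McLain.normal_inf A B h1 h2
  nontriv := by
    have hlt : (-1 : ℚ) < 1 := by norm_num
    exact ⟨⟨_, _, Q6.McLain.tv_ne_one hlt⟩⟩

/-- There is a non-abelian characteristically simple group `T`, neither simple nor an FCR-group,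
such that for every `m > 1` the diagonal group `D(T, m)` preserves a Cartesian lattice. -/
theorem result : ∃ (T : Type) (_ : Group T), NonAbelian T ∧ CharSimple T ∧ ¬ IsSimpleGroup T ∧
    ¬ IsFCR T ∧ ∀ m : ℕ, 1 < m → PreservesCartesianLattice (diagonalGroup T m) := by
  refine ⟨Q6.McLain.U × Q6.McLain.U, inferInstance, ?_, ⟨?_, ?_⟩, ?_, ?_, ?_⟩
  · obtain ⟨g, hg⟩ := @exists_ne _ good_U.nontriv (1 : Q6.McLain.U)
    obtain ⟨x, hx⟩ := good_U.cless g hg
    exact ⟨(g, 1), (x, 1), fun h => hx (congrArg Prod.fst h)⟩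
  · have := good_U.nontriv
    infer_instance
  · exact fun C hC => good_U.prod_char Q6.McLain.char_simple C hC
  · intro hs
    have hn : ((⊤ : Subgroup Q6.McLain.U).prod (⊥ : Subgroup Q6.McLain.U)).Normal :=
      Subgroup.prod_normal _ _
    obtain ⟨g, hg⟩ := @exists_ne _ good_U.nontriv (1 : Q6.McLain.U)
    rcases hs.eq_bot_or_eq_top_of_normal _ hn with h | h
    · have h1 : ((g, 1) : Q6.McLain.U × Q6.McLain.U) ∈
          (⊤ : Subgroup Q6.McLain.U).prod (⊥ : Subgroup Q6.McLain.U) :=
        ⟨Subgroup.mem_top _, Subgroup.mem_bot.2 rfl⟩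
      rw [h, Subgroup.mem_bot] at h1
      exact hg (congrArg Prod.fst h1)
    · have h1 : ((1, g) : Q6.McLain.U × Q6.McLain.U) ∈
          (⊤ : Subgroup Q6.McLain.U).prod (⊥ : Subgroup Q6.McLain.U) := by
        rw [h]
        exact Subgroup.mem_top _
      exact hg h1.2
  · rintro ⟨S, iS, k, hs, hS, -, ⟨e⟩⟩
    let N0 : Subgroup (Q6.McLain.U × Q6.McLain.U) := Q6.McLain.Ab.prod ⊥
    have hN0 : N0.Normal := by
      have := Q6.McLain.Ab_normal
      exact Subgroup.prod_normal _ _
    have hN : (N0.map e.toMonoidHom).Normal := hN0.map _ e.surjective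
    have hab : ∀ a ∈ N0.map e.toMonoidHom, ∀ b ∈ N0.map e.toMonoidHom, a * b = b * a := by
      rintro _ ⟨a, ha, rfl⟩ _ ⟨b, hb, rfl⟩
      rw [← map_mul, ← map_mul]
      congr 1
      apply Prod.ext
      · exact Q6.McLain.Ab_comm ha.1 hb.1
      · have h1 : a.2 = 1 := ha.2
        have h2 : b.2 = 1 := hb.2
        show a.2 * b.2 = b.2 * a.2
        rw [h1, h2]
    have hbot := Q6.McLain.pi_simple_abelian hS _ hN hab
    obtain ⟨a, ha, ha1⟩ := Q6.McLain.Ab_ne_bot
    have h1 : e ((a, 1) : Q6.McLain.U × Q6.McLain.U) ∈ N0.map e.toMonoidHom :=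
      Subgroup.mem_map_of_mem _ ⟨ha, Subgroup.mem_bot.2 rfl⟩
    rw [hbot, Subgroup.mem_bot, ← map_one e] at h1
    exact ha1 (congrArg Prod.fst (e.injective h1))
  · intro m hm
    obtain ⟨f, hf⟩ := exists_bij (G := Q6.McLain.U) m
    refine ⟨2, Omega Q6.McLain.U m, f, le_rfl, ?_, fun g hg => good_image (good_of_mem good_U hf hg)⟩
    obtain ⟨g, hg⟩ := @exists_ne _ good_U.nontriv (1 : Q6.McLain.U)
    refine ⟨⟨coset (fun _ => 1), coset (fun i => if i = 0 then 1 else g), ?_⟩⟩
    intro h
    rw [coset_eq] at h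
    have h1 := h (Fin.last m)
    have h2 : Fin.last m ≠ 0 := by
      intro h'
      have := congrArg Fin.val h'
      simp at this
      omega
    rw [if_neg h2, if_pos rfl, inv_one, mul_one, mul_one] at h1
    exact hg h1

end Pool.Agent.Results.MP_f6f6d4_al.McLainSquare
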